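import Pool.Agent.Helper88.TU.Size

/-!
# Arbitrary sets of translates without primes: statements

Main theorem (`StmtT`): there are `c > 0`, `C`, `A`, `X` such that for all `x ≥ X`,
`0 ≤ L ≤ c log log x` and EVERY set `S` of at most `L log x` integers in `[-x², x²]`, at least
`x exp (-A exp (C L))` of the integers `n ∈ (x, 2x]` are not of the form `n = p + s`, `p` prime,
`s ∈ S`.

Structure.  The weights of `TU` (see `Pool/Agent/Helper88/TU/Goals.lean`, `RR`, `GM`), for points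
`P ⊆ [1, x^5]` instead of points in a window of length `y`.  Two points may now be congruent modulo
a prime `p > y`:
* for the primes in `(y, z]` we use the exact density `gB y z B` of the roughness at the points `B`
  (as in `GM`), which is between `gg y z #B` and `2 gg y z #B` for few points (`StmtGH`), because
  a difference of two points has at most `6 log x / log y` prime factors `> y`, and
  `(log x)^(7/4) ≤ y`;
* for the primes `> z` we only use labels which are prime to an integer `D` which is divisible by all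
  differences of two points and has few prime factors `> z` (`Dv`, `StmtDV`): all normalisations
  change by a factor at most 2 (`StmtVB`).
-/

set_option autoImplicit false

open Finset Filter Topology

open scoped Classical

namespace Pool.Agent.Helper88.SE

open Pool.Agent.Helper88.PP (pr Rg om Sf SS uu vv ee LA VV QQ cost nc dd)
open Pool.Agent.Helper88.RR (gg ab nz VM)
open Pool.Agent.Helper88.GM (NI XI gB In sp)
open Pool.Agent.Helper88.TU (Su rt Pt AA AX)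
open Pool.Agent.Helper88.CG (mE qE)

/-- the parameters: as `TU.Su`, and `(log x)^(7/4) ≤ y` -/
def Sx (E z x y : ℕ) : Prop := Su E z x y ∧ Real.log x ^ 7 ≤ (y : ℝ) ^ 4

/-- `D` is divisible by all the differences of two points and has few prime factors `> z` -/
def Dv (z D : ℕ) (P : Finset ℕ) : Prop :=
  D ≠ 0 ∧ (∀ i ∈ P, ∀ j ∈ P, i < j → j - i ∣ D) ∧ (D.primeFactors.filter (fun p => z < p)).card ^ 2 ≤ z

/-- the points: in `[1, x^5]`, at most `y`, at most `E² / om` -/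
def Pn (E z x y : ℕ) (P : Finset ℕ) : Prop :=
  P ⊆ Icc 1 (x ^ 5) ∧ P.card ≤ y ∧ (P.card : ℝ) * om y z ≤ (E : ℝ) ^ 2

/-! ## the weight, with labels prime to `D` -/

/-- the elements of `SS` prime to `D` -/
noncomputable def SD (z X D : ℕ) : Finset ℕ := (SS z X).filter (fun r => Nat.Coprime r D)

/-- the labels prime to `D` -/
noncomputable def LD (z m m' D : ℕ) : Finset ℕ := (LA z m m').filter (fun r => Nat.Coprime r D)

/-- the normalisation -/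
noncomputable def VD (z m m' D : ℕ) : ℝ := ∑ r ∈ LD z m m' D, 1 / ((Nat.totient r : ℝ) * ee z r)

/-- the coefficient of the label `r` -/
noncomputable def ad (m q z D r : ℕ) : ℝ :=
  1 / (VD z m (q * m) D * (Nat.totient r : ℝ) * ee z r)

/-- the label functions on the set of points `P`, of total cost at most `M` -/
noncomputable def TD (m q M z D : ℕ) (P : Finset ℕ) : Finset (P → ℕ) :=
  (Fintype.piFinset (fun _ : P => insert 0 (LD z m (q * m) D))).filter (fun r => cost z r ≤ M)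

/-- the weight: the part of small cost of `∏_{i ∈ P} (1 - S(n + i))` -/
noncomputable def WD (m q M z y D : ℕ) (P : Finset ℕ) (n : ℕ) : ℝ :=
  ∑ r ∈ TD m q M z D P, ∏ i : P,
    ((if r i = 0 then 1 else - ad m q z D (r i)) * vv y z (r i) (n + (i : ℕ)))

/-- the contribution of the label function `r` to the mean square of the weight (up to a factor
at most 2) -/
noncomputable def wd (m q y z D : ℕ) {P : Finset ℕ} (r : P → ℕ) : ℝ :=
  gg y z (nz r) * ∏ i : P, (if r i = 0 then 1 else ad m q z D (r i) ^ 2 * (Nat.totient (r i) : ℝ))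

/-- the mean square of the weight (up to a factor at most 2) -/
noncomputable def ED (m q M z y D : ℕ) (P : Finset ℕ) : ℝ := ∑ r ∈ TD m q M z D P, wd m q y z D r

/-- what is left over at a prime -/
noncomputable def Dd (m q M z D t : ℕ) : ℝ :=
  ∑ s ∈ (LD z m (q * m) D).filter (fun s => M < t + ee z s), ad m q z D s

/-- the normalisation of the majorant of the primes -/
noncomputable def VN (M z D : ℕ) : ℝ := ∑ s ∈ SD z (z ^ M) D, 1 / (Nat.totient s : ℝ)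

/-- the weight at a prime, times the majorant of the primes -/
noncomputable def GD (m q M z y D : ℕ) (P : Finset ℕ) (h : P) (n : ℕ) : ℝ :=
  ∑ r ∈ (TD m q M z D P).filter (fun r => r h = 0), ∑ s ∈ SD z (z ^ M) D,
    Dd m q M z D (cost z r) * (1 / (VN M z D * (Nat.totient s : ℝ))) * vv y z s (n + (h : ℕ)) *
      ∏ i : P, ((if r i = 0 then 1 else - ad m q z D (r i)) * vv y z (r i) (n + (i : ℕ)))

/-! ## Part I: sieve -/

/-- PACKET BK (the main terms of the Brun-Hooley sieve with local numbers `κ p ≤ k` instead of `k`).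
Adaptation of `Pool/Agent/Helper57/TU/BM.lean` (there most lemmas are already for general
`x p ∈ [0,1]`): `x_p = κ p / p ≤ k/p`; `π_t = ∏_{p ∈ Pt} (1 - κ p/p) ≥ exp(-2 k L_t)`,
`w_t ≤ (k L_t)^(r+1)/(r+1)!`, everything else is the same.  (The bounds for `∏ A` are in `TU.StmtBM`.) -/
def StmtBK : Prop := ∃ E0 : ℕ, ∀ E y z k : ℕ, ∀ κ : ℕ → ℕ, E0 ≤ E → Real.exp E ≤ z → E ^ 2 ≤ y →
  y ≤ z → k ^ 2 ≤ E → (∀ p, κ p ≤ k) → 0 < ∏ p ∈ pr y z, (1 - (κ p : ℝ) / p) ∧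
  |∑ A ∈ AA E y z, (-1 : ℝ) ^ A.card * ∏ p ∈ A, ((κ p : ℝ) / p) - ∏ p ∈ pr y z, (1 - (κ p : ℝ) / p)|
    ≤ Real.exp (-(E : ℝ)) * ∏ p ∈ pr y z, (1 - (κ p : ℝ) / p) ∧
  -∑ t ∈ range z, ∑ A ∈ AX E y z t, (-1 : ℝ) ^ A.card * ∏ p ∈ A, ((κ p : ℝ) / p)
    ≤ Real.exp (-(E : ℝ)) * ∏ p ∈ pr y z, (1 - (κ p : ℝ) / p)

/-- PACKET GH (the density of the roughness at few points).  `κ p = #(B mod p) ≤ k = #B`, so
`gg y z k ≤ gB y z B`.  `κ p = k` unless `p ∣ j - i` for some `i < j` in `B`; `0 < j - i < x^6` has at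
most `6 log x / log y ≤ 6 log x` prime factors `> y`, so there are at most `6 k² log x` primes with
`κ p < k`, and for these `(1 - κ p/p)/(1 - k/p) = 1 + (k - κ p)/(p - k) ≤ 1 + 2k/p ≤ exp(2k/y)`.  With
`k² ≤ E`, `E² ≤ log x` (Size), `(log x)^(7/4) ≤ y` the exponent is at most
`2k · k² · 6 log x/(y log y) ≤ 12/log y ≤ log 2` for large `E` (use the `log y`: `y ≥ E²`). -/
def StmtGH : Prop := ∃ E0 : ℕ, ∀ E z x y : ℕ, E0 ≤ E → Sx E z x y → ∀ B : Finset ℕ,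
  B ⊆ Icc 1 (x ^ 5) → B.card ^ 2 ≤ E →
  0 < gg y z B.card ∧ gg y z B.card ≤ gB y z B ∧ gB y z B ≤ 2 * gg y z B.card ∧
    gg y z B.card ≤ om y z ^ B.card

/-- PACKET TK (counting; may assume BK, GH, `TU.StmtBH` = `Helper10.TU.bh`, `TU.StmtBM` =
`Helper57.TU.bm`, Size).  Adaptation of `Pool/Agent/Helper51/TU/TL.lean`; the only change in
`count_hit` is that for a prime `p ∈ (y, z]` the number of `t mod p` with `p ∣ a + q t + i` for some
`i ∈ B` is `κ p = #(B mod p)` instead of `#B` (`Pool/Agent/Helper8/GM/TL.lean` has this), so the main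
term is `XI/∏d · ∏_{p ∈ A} κ p / p`, with the same error; then BK with `κ p = (B.image (· % p)).card`,
`∏ (1 - κ p/p) = gB y z B ≥ gg y z #B ≥ exp(-(log z)/10)` (`TU.size_gg`, GH).  Second part: a common
prime factor `p` of `d i`, `d j`, `i < j`, divides `n + i` and `n + j`, hence `j - i`: impossible as
`d i` is prime to `j - i`. -/
def StmtTK : Prop := ∃ c : ℝ, 0 < c ∧ ∃ E0 : ℕ, ∀ E z x y : ℕ, E0 ≤ E → Sx E z x y →
  ∀ u v Q b : ℕ, In x u v Q b → ∀ B : Finset ℕ, B ⊆ Icc 1 (x ^ 5) → B.card ^ 2 ≤ E →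
  ∀ d : ℕ → ℕ, (∀ i ∈ B, Sf z (d i)) → (∀ i ∈ B, ∀ j ∈ B, i < j → Nat.Coprime (d i) (j - i)) →
  ∏ i ∈ B, d i ≤ z ^ (E / 4) →
  ((∀ i ∈ B, ∀ j ∈ B, i ≠ j → Nat.Coprime (d i) (d j)) →
    |(((NI u v Q b).filter (fun n => ∀ i ∈ B, d i ∣ n + i ∧ Rg y z (n + i))).card : ℝ)
      - XI u v Q * (gB y z B * ∏ i ∈ B, (1 / (d i : ℝ)))|
      ≤ Real.exp (-(c * E)) * (XI u v Q * (gB y z B * ∏ i ∈ B, (1 / (d i : ℝ)))))
  ∧ (¬ (∀ i ∈ B, ∀ j ∈ B, i ≠ j → Nat.Coprime (d i) (d j)) →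
    ((NI u v Q b).filter (fun n => ∀ i ∈ B, d i ∣ n + i ∧ Rg y z (n + i))).card = 0)

/-! ## Part II: the labels prime to `D` -/

/-- PACKET DV (existence of `D`).  `D = ∏_{i < j in P} (j - i)`.  Its prime factors `> z` divide some
`j - i < x^5`, which has at most `5 log x / log z ≤ 10 (E : ℝ)` (Size: `log x ≤ 2 E log z`) of them; so
there are at most `#P² · 10 E ≤ y² · 10 E` and `(10 E y²)² ≤ z` by Size (`TU.size_pow` or
`E² ≤ log x ≤ y ≤ (log x)²`, `log x ≤ 2 (log z)²`). -/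
def StmtDV : Prop := ∃ E0 : ℕ, ∀ E z x y : ℕ, E0 ≤ E → Sx E z x y → ∀ P : Finset ℕ,
  P ⊆ Icc 1 (x ^ 5) → P.card ≤ y → ∃ D : ℕ, Dv z D P

/-- PACKET VB (the restriction to labels prime to `D` loses at most half; may assume `RR.StmtCB` =
`Helper31.RR.cb`).  `∑_{r ∈ LA, gcd(r,D) > 1} ab r ≤ ∑_{p ∣ D, p > z} ∑_{r ∈ LA, p ∣ r} ab r`
`≤ ∑_{p ∣ D, p > z} C/p ≤ C √z / z ≤ 1/2` (CB for `d = p < z^(E/16)`; there is no `r` for larger `p`),
and `∑_{r ∈ LA} ab r = 1`, so `VD ≥ VV/2`; in the same way `VN ≥ VM/2`.  Then `0 ≤ ad ≤ 2 ab` on the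
labels, `∑_{r ∈ LD} ad r = 1`, and `1 ≤ VN` because of `s = 1`. -/
def StmtVB : Prop := ∃ E0 : ℕ, ∀ E z x y : ℕ, E0 ≤ E → Sx E z x y → ∀ m q : ℕ, 1 ≤ m →
  q * m ≤ E / 16 → 1 ≤ VV z m (q * m) → ∀ (P : Finset ℕ) (D : ℕ), Dv z D P →
  VV z m (q * m) ≤ 2 * VD z m (q * m) D ∧ VD z m (q * m) D ≤ VV z m (q * m) ∧
  VM (E / 16) z ≤ 2 * VN (E / 16) z D ∧ 1 ≤ VN (E / 16) z D ∧
  (∀ r ∈ LD z m (q * m) D, 0 ≤ ad m q z D r ∧ ad m q z D r ≤ 2 * ab m q z r) ∧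
  ∑ r ∈ LD z m (q * m) D, ad m q z D r = 1

/-! ## Part III: second moments -/

/-- PACKET TR (helper88): `GM.StmtTR` with labels prime to `D`; the counting hypothesis is only needed
for divisors prime to `D`. -/
def StmtTR : Prop := ∀ (ι : Type) [Fintype ι] [DecidableEq ι] (pt : ι → ℕ) (y z X M K D : ℕ)
  (N : Finset ℕ) (Y o δ C : ℝ) (ga : Finset ι → ℝ) (T : Finset (ι → ℕ)) (c : (ι → ℕ) → ℝ)
  (al : ι → ℕ → ℝ) (BB : Finset (Finset ι)),
  2 ≤ z → 0 ≤ Y → 0 ≤ o → 0 ≤ δ → 1 ≤ C → (∀ B ∈ BB, 0 ≤ ga B ∧ ga B ≤ o ^ B.card) →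
  (∀ r ∈ T, ∀ i, r i = 0 ∨ r i ∈ SD z X D) →
  (∀ r ∈ T, ∀ s ∈ T, ∀ i, r i = 1 → s i ≠ 0) →
  (∀ r ∈ T, (∏ i, max 1 (r i)) ^ 2 ≤ M) →
  (∀ r ∈ T, ∀ s ∈ T, (univ.filter (fun i => r i ≠ 0 ∨ s i ≠ 0)) ∈ BB) →
  (∀ B ∈ BB, B.card ≤ K) →
  (∀ i r, 0 ≤ al i r) → (∀ i, al i 0 ≤ 1) → (∀ r ∈ T, |c r| ≤ ∏ i, al i (r i)) →
  (∀ i, ∀ d ∈ SS z X, (d : ℝ) * ∑ r ∈ (SS z X).filter (fun r => d ∣ r), al i r ≤ C) →
  (∀ d : ι → ℕ, (∀ i, d i = 0 ∨ (Sf z (d i) ∧ Nat.Coprime (d i) D)) → ∏ i, max 1 (d i) ≤ M →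
    (univ.filter (fun i => d i ≠ 0)) ∈ BB →
    ((∀ i j, i ≠ j → d i ≠ 0 → d j ≠ 0 → Nat.Coprime (d i) (d j)) →
      |((N.filter (fun n => ∀ i, d i ≠ 0 → d i ∣ n + pt i ∧ Rg y z (n + pt i))).card : ℝ)
        - Y * (ga (univ.filter (fun i => d i ≠ 0)) *
            ∏ i, (if d i = 0 then 1 else 1 / (d i : ℝ)))|
        ≤ δ * (Y * ∏ i, dd o (d i)))
    ∧ (¬ (∀ i j, i ≠ j → d i ≠ 0 → d j ≠ 0 → Nat.Coprime (d i) (d j)) →
      (N.filter (fun n => ∀ i, d i ≠ 0 → d i ∣ n + pt i ∧ Rg y z (n + pt i))).card = 0)) →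
  |∑ n ∈ N, (∑ r ∈ T, c r * ∏ i, vv y z (r i) (n + pt i)) ^ 2
      - Y * ∑ r ∈ T, c r ^ 2 * (ga (univ.filter (fun i => r i ≠ 0)) *
          ∏ i, (if r i = 0 then 1 else (Nat.totient (r i) : ℝ)))|
    ≤ Y * (δ + 9 * K ^ 2 / z) *
      ∑ B ∈ BB, (o * (3 * C ^ 2 * ∑ e ∈ SS z (X ^ 2), (3 : ℝ) ^ e.primeFactors.card / e)) ^ B.card

/-- PACKET TH (second moment; may assume TR, TK, GH, Size, `RR.StmtCB` = `Helper31.RR.cb`).
Adaptation of `Pool/Agent/Helper16/TU/TG.lean` (`tlg` as in `Pool/Agent/Helper49/GM/TS.lean`, where the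
density is already `gB`).  Changes: points in `[1, x^5]`; labels prime to `D`, where `D` is divisible by
the differences (so the hypothesis `Nat.Coprime (d i) (j - i)` of TK holds); density `gB y z (sp r)`,
`gB y z B ≤ 2 gg y z #B ≤ (2 om)^#B` for `B ≠ ∅` (GH) and `gB y z ∅ = 1`, so `o = 2 om y z` in TR (constants);
the coefficients are allowed to be twice as large (`C` replaced by `2 C`); `#F, #G ≤ 1`. -/
def StmtTH : Prop := ∃ c : ℝ, 0 < c ∧ ∃ E0 : ℕ, ∀ E z x y : ℕ, E0 ≤ E → Sx E z x y →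
  ∀ u v Q b : ℕ, In x u v Q b → ∀ m q K : ℕ, 1 ≤ m → q * m ≤ E / 16 → 1 ≤ VV z m (q * m) →
  K ^ 3 ≤ E → ∀ (P : Finset ℕ) (D : ℕ), Pn E z x y P → Dv z D P →
  ∀ (T : Finset (P → ℕ)) (a : (P → ℕ) → ℝ) (F G : Finset P), F.card ≤ 1 → G.card ≤ 1 →
  Disjoint F G →
  (∀ r ∈ T, ∀ i, i ∉ F → i ∉ G → (r i = 0 ∨ r i ∈ LD z m (q * m) D)) →
  (∀ r ∈ T, ∀ i ∈ F, r i ∈ SD z (z ^ (E / 16)) D) →
  (∀ r ∈ T, ∀ i ∈ G, r i = 1 ∨ r i ∈ LD z m (q * m) D) →
  (∀ r ∈ T, nz r ≤ K) →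
  (∀ r ∈ T, ∏ i, max 1 (r i) ≤ z ^ (2 * (E / 16))) →
  (∀ r ∈ T, |a r| ≤ ∏ i, (if i ∈ F then 2 / (VM (E / 16) z * (Nat.totient (r i) : ℝ)) else
    if i ∈ G then (if r i = 1 then 1 else 2 * ab m q z (r i)) else
    if r i = 0 then 1 else 2 * ab m q z (r i))) →
  |∑ n ∈ NI u v Q b, (∑ r ∈ T, a r * ∏ i, vv y z (r i) (n + (i : ℕ))) ^ 2
      - XI u v Q * ∑ r ∈ T, a r ^ 2 *
        (gB y z (sp r) * ∏ i, (if r i = 0 then 1 else (Nat.totient (r i) : ℝ)))|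
    ≤ Real.exp (-(c * E)) * om y z ^ (F.card + G.card) * XI u v Q

/-- PACKET S1 (mean square; may assume TH, GH, VB, Size).  TH with `F = G = ∅`, `T = TD`,
`K = (E/16)/m + 1`, as `Pool/Agent/Helper55/TU/S1.lean` (there `a r = ∏ (1 or -ab)`; here
`|ad| ≤ 2 ab` by VB); `gg y z (nz r) ≤ gB y z (sp r) ≤ 2 gg y z (nz r)` by GH (`#(sp r) = nz r`,
`(nz r)² ≤ E`), so the main term is between `XI ED` and `2 XI ED`; the error is at most `XI/2 ≤ XI ED/2`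
(the label function `0` gives `1 ≤ ED`). -/
def StmtS1 : Prop := ∃ E0 : ℕ, ∀ E z x y : ℕ, E0 ≤ E → Sx E z x y →
  ∀ u v Q b : ℕ, In x u v Q b → ∀ m q : ℕ, 1 ≤ m → q * m ≤ E / 16 → 1 ≤ VV z m (q * m) →
  (E / 16 / m + 1) ^ 3 ≤ E → ∀ (P : Finset ℕ) (D : ℕ), Pn E z x y P → Dv z D P →
    1 ≤ ED m q (E / 16) z y D P ∧
    1 / 2 * (XI u v Q * ED m q (E / 16) z y D P)
      ≤ ∑ n ∈ NI u v Q b, WD m q (E / 16) z y D P n ^ 2 ∧
    ∑ n ∈ NI u v Q b, WD m q (E / 16) z y D P n ^ 2 ≤ 3 * (XI u v Q * ED m q (E / 16) z y D P)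

/-- PACKET GT (the mean square of `GD`; may assume TH, GH, VB, Size).  TH with `F = {h}`, `G = ∅`, as
`Pool/Agent/Helper91/TU/GT.lean`; two more factors 2: `gB ≤ 2 gg`, and `1/VN ≤ 1` as before. -/
def StmtGT : Prop := ∃ c : ℝ, 0 < c ∧ ∃ E0 : ℕ, ∀ E z x y : ℕ, E0 ≤ E → Sx E z x y →
  ∀ u v Q b : ℕ, In x u v Q b → ∀ m q : ℕ, 1 ≤ m → q * m ≤ E / 16 → 1 ≤ VV z m (q * m) →
  (E / 16 / m + 1) ^ 3 ≤ E → ∀ (P : Finset ℕ) (D : ℕ), Pn E z x y P → Dv z D P → ∀ h : P,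
    ∑ n ∈ NI u v Q b, GD m q (E / 16) z y D P h n ^ 2 ≤ 2 * (XI u v Q * om y z *
      (∑ r ∈ (TD m q (E / 16) z D P).filter (fun r => E / 16 < cost z r + q * m), wd m q y z D r
        + Real.exp (-(c * E))))

/-- PACKET PW (at a prime the weight is `GD`).  Adaptation of `Pool/Agent/Helper59/RR/PW.lean`:
`LD`, `SD`, `VD`, `VN` instead of `LA`, `SS`, `VV`, `VM`; only `z ^ M ≤ n + h` is needed. -/
def StmtPW : Prop := ∀ (m q M z y D : ℕ) (P : Finset ℕ) (h : P) (n : ℕ), 2 ≤ M → 1 ≤ m →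
  2 ≤ z → VD z m (q * m) D ≠ 0 → q * m ≤ M → (n + (h : ℕ)).Prime → z ^ M ≤ n + (h : ℕ) →
  WD m q M z y D P n = GD m q M z y D P h n

/-- PACKET KQ (helper88): the primes at the points of `P` are killed by the weight. -/
def StmtKQ : Prop := ∃ c : ℝ, 0 < c ∧ ∀ η : ℝ, 0 < η → ∃ E0 : ℕ, ∀ E z x y : ℕ, E0 ≤ E →
  Sx E z x y → ∀ u v Q b : ℕ, In x u v Q b → ∀ (P : Finset ℕ) (D : ℕ), P ⊆ Icc 1 (x ^ 5) →
  P.card ≤ y → Dv z D P → (∀ h ∈ P, x ≤ u + h) → (P.card : ℝ) * om y z ≤ c * (E * Real.log E) →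
  ∑ n ∈ NI u v Q b, WD (mE E) (qE E) (E / 16) z y D P n ^ 2 *
      ((P.filter (fun h => (n + h).Prime)).card : ℝ)
    ≤ η * (XI u v Q * ED (mE E) (qE E) (E / 16) z y D P)

/-- PACKET RC (the number of rough points under the weight; may assume TH, GH, VB, Size, and
`CG.StmtVP` = `Pool.Agent.Helper88.CG.vp`).  Adaptation of `Pool/Agent/Helper94/TU/RC.lean`: TH with
`F = ∅`, `G = {i}`, `K = (E/16)/mE E + 2`; constants 2 from `gB ≤ 2 gg`. -/
def StmtRC : Prop := ∃ C : ℝ, 0 < C ∧ ∃ E0 : ℕ, ∀ E z x y : ℕ, E0 ≤ E → Sx E z x y →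
  ∀ u v Q b : ℕ, In x u v Q b → ∀ (P : Finset ℕ) (D : ℕ), Pn E z x y P → Dv z D P →
  ∑ n ∈ NI u v Q b, WD (mE E) (qE E) (E / 16) z y D P n ^ 2 *
      ((P.filter (fun h => Rg y z (n + h))).card : ℝ)
    ≤ C * (XI u v Q * ED (mE E) (qE E) (E / 16) z y D P) * (P.card * om y z + E)

/-- PACKET SU (a bound for the weight at an integer with few rough points; may assume VB, Size and
`RR.StmtCB` = `Helper31.RR.cb`).  Adaptation of `Pool/Agent/Helper80/TU/SU.lean`; now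
`n + i ≤ x + x^5 ≤ (z+1)^(6 E) ≤ ...`, so `n + i` has at most `12 E` prime factors `> z`, the base of the
estimate is `1 + E³ C 2^(12 E)` and the number of labels is at most `K ≤ E^(1/3)`. -/
def StmtSU : Prop := ∃ E0 : ℕ, ∀ E z x y : ℕ, E0 ≤ E → Sx E z x y → ∀ m q : ℕ, 1 ≤ m →
  q * m ≤ E / 16 → 1 ≤ VV z m (q * m) → (E / 16 / m + 1) ^ 3 ≤ E →
  ∀ (P : Finset ℕ) (D : ℕ), P ⊆ Icc 1 (x ^ 5) → Dv z D P → ∀ n : ℕ, n ≤ x →
    (P.filter (fun h => Rg y z (n + h))).card ≤ E ^ 3 →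
    WD m q (E / 16) z y D P n ^ 2 ≤ Real.exp ((E : ℝ) ^ 2 / 2)

/-! ## Part IV: the conclusion -/

/-- PACKET CL (the choice of the class).  For `i ∈ P` the number of `b < Q` with `gcd(b + i, Q) = 1` is
`φ(Q)`; so the mean over `b < Q` of the number of `i ∈ P` with `gcd(b + i, Q) = 1` is `#P φ(Q)/Q`, and
by Markov's inequality this number is at most twice the mean for at least half of the `b`. -/
def StmtCL : Prop := ∀ (Q : ℕ) (P : Finset ℕ), 1 ≤ Q →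
  (Q : ℝ) / 2 ≤ (((range Q).filter (fun b =>
    ((P.filter (fun i => Nat.Coprime (b + i) Q)).card : ℝ) ≤ 2 * (P.card * (Nat.totient Q / Q : ℝ)))).card : ℝ)

/-- PACKET LT (helper88): the local theorem.  For half of the classes `b` modulo `QQ x` the points `i`
with `gcd(b + i, QQ x) = 1` satisfy the hypotheses of KQ (CL and `TU.StmtA4`); S1, KQ, RC, SU give at
least `XI exp(-E²)` integers `n` in the class. -/
def StmtLT : Prop := ∃ c C A : ℝ, 0 < c ∧ 0 ≤ C ∧ 0 ≤ A ∧ ∃ x0 : ℕ, ∀ x : ℕ, x0 ≤ x → ∀ L : ℝ,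
  0 ≤ L → L ≤ c * Real.log (Real.log x) → ∀ P : Finset ℕ, P ⊆ Icc x (x ^ 5) →
  (P.card : ℝ) ≤ L * Real.log x →
  x * Real.exp (-(A * Real.exp (C * L)))
    ≤ (((Ioc 0 x).filter (fun n => ∀ h ∈ P, ¬ (n + h).Prime)).card : ℝ)

/-- THE MAIN THEOREM (PACKET T; may assume LT).  `h = ⌊√x⌋`; the intervals `(k h, (k+1) h]` inside
`(x, 2x]`, at least `x/(2h)`; at least `x/(4h)` of them are such that no `s ∈ S` is in
`((k-1) h, (k+1) h]` (every `s` excludes at most two `k`).  For such a `k` apply LT with `h` instead of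
`x`, `3L` instead of `L` and the points `k h - s`, `s ∈ S`, `s ≤ (k-1) h`, which are between `h` and
`2x + x² ≤ h^5`: for `n = k h + n'` we have `n - s = n' + (k h - s)`, and `n - s < 0` for the other `s`.
`log x ≤ 3 log h`, `log log h ≥ (log log x)/2`. -/
def StmtT : Prop := ∃ c C A : ℝ, 0 < c ∧ ∃ X : ℝ, ∀ x : ℝ, X ≤ x → ∀ L : ℝ, 0 ≤ L →
  L ≤ c * Real.log (Real.log x) → ∀ S : Finset ℤ, (∀ s ∈ S, |(s : ℝ)| ≤ x ^ 2) →
  (S.card : ℝ) ≤ L * Real.log x →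
  x * Real.exp (-(A * Real.exp (C * L)))
    ≤ ({n : ℤ | x < n ∧ (n : ℝ) ≤ 2 * x ∧ ∀ s ∈ S, ∀ p : ℕ, p.Prime → n ≠ p + s}.ncard : ℝ)

end Pool.Agent.Helper88.SE
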