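import Pool.Agent.Helper88.SE.Main

/-!
# Arbitrary sets of translates without primes: the final form
-/

set_option autoImplicit false

namespace Pool.Agent.Helper88.SE

/-- integers which are not primes and form an interval lie between two consecutive primes -/
theorem gap {n a b : ℤ} (hn : 3 ≤ n) (ha : 0 ≤ a) (hab : a ≤ b)
    (h : ∀ s : ℤ, a ≤ s → s ≤ b → ∀ p : ℕ, p.Prime → n + s ≠ p) :
    ∃ m : ℕ, (Nat.nth Nat.Prime m : ℤ) < n + a ∧ n + b < Nat.nth Nat.Prime (m + 1) := by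
  obtain ⟨N, hN⟩ : ∃ N : ℕ, (N : ℤ) = n + a := ⟨(n + a).toNat, by omega⟩
  have hN3 : 3 ≤ N := by omega
  have hc : 0 < Nat.count Nat.Prime N := by
    have h1 : Nat.count Nat.Prime 3 ≤ Nat.count Nat.Prime N := Nat.count_monotone _ hN3
    have h2 : Nat.count Nat.Prime 3 = 1 := by decide
    omega
  refine ⟨Nat.count Nat.Prime N - 1, ?_, ?_⟩
  · have h1 : Nat.nth Nat.Prime (Nat.count Nat.Prime N - 1) < N :=
      Nat.nth_lt_of_lt_count (by omega)
    omega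
  · have h1 : N ≤ Nat.nth Nat.Prime (Nat.count Nat.Prime N) :=
      Nat.le_nth_count Nat.infinite_setOfPred_prime N
    have h2 : (Nat.nth Nat.Prime (Nat.count Nat.Prime N)).Prime := Nat.prime_nth_prime _
    have h3 : Nat.count Nat.Prime N - 1 + 1 = Nat.count Nat.Prime N := by omega
    rw [h3]
    by_contra hcon
    push Not at hcon
    exact h ((Nat.nth Nat.Prime (Nat.count Nat.Prime N) : ℤ) - n) (by omega) (by omega) _ h2
      (by ring)

theorem fin : ∃ c C A X : ℝ, 0 < c ∧ c * C ≤ 1 / 2 ∧ ∀ x : ℝ, X ≤ x → ∀ L : ℝ, 0 ≤ L →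
    L ≤ c * Real.log (Real.log x) → ∀ S : Finset ℤ, (∀ s ∈ S, |(s : ℝ)| ≤ x ^ 2) →
    (S.card : ℝ) ≤ L * Real.log x →
    x * Real.exp (-(A * Real.exp (C * L)))
      ≤ ({n : ℤ | x < n ∧ (n : ℝ) ≤ 2 * x ∧ (∀ s ∈ S, ∀ p : ℕ, p.Prime → n + s ≠ p) ∧
          ∀ a b : ℤ, 0 ≤ a → a ≤ b → (∀ s : ℤ, a ≤ s → s ≤ b → s ∈ S) →
            ∃ m : ℕ, (Nat.nth Nat.Prime m : ℤ) < n + a ∧
              n + b < Nat.nth Nat.Prime (m + 1)}.ncard : ℝ) := by
  obtain ⟨c, C, A, hc, X, hX⟩ := Pool.Agent.Helper88.SE.main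
  have hC : 0 < 2 * (|C| + 1) := by positivity
  refine ⟨min c (1 / (2 * (|C| + 1))), C, A, max X 3, lt_min hc (by positivity), ?_,
    fun x hx L hL hLc S hS hSL => ?_⟩
  · calc min c (1 / (2 * (|C| + 1))) * C ≤ min c (1 / (2 * (|C| + 1))) * (|C| + 1) := by
          refine mul_le_mul_of_nonneg_left ?_ (le_min hc.le (by positivity))
          have := le_abs_self C
          linarith
      _ ≤ 1 / (2 * (|C| + 1)) * (|C| + 1) :=
          mul_le_mul_of_nonneg_right (min_le_right _ _) (by positivity)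
      _ = 1 / 2 := by field_simp
  have hx3 : (3 : ℝ) ≤ x := le_trans (le_max_right _ _) hx
  have hx2 : (2 : ℝ) ≤ x := by linarith
  have hll : 0 ≤ Real.log (Real.log x) := by
    refine Real.log_nonneg ?_
    rw [Real.le_log_iff_exp_le (by linarith)]
    exact le_trans Real.exp_one_lt_three.le hx3
  replace hLc : L ≤ c * Real.log (Real.log x) :=
    le_trans hLc (mul_le_mul_of_nonneg_right (min_le_left _ _) hll)
  have key := hX x (le_trans (le_max_left _ _) hx) L hL hLc (S.image (fun s => -s))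
    (by
      intro s hs
      obtain ⟨t, ht, rfl⟩ := Finset.mem_image.1 hs
      push_cast
      rw [abs_neg]
      exact hS t ht)
    (by
      rw [Finset.card_image_of_injective S neg_injective]
      exact hSL)
  refine le_trans key ?_
  have hsub : {n : ℤ | x < n ∧ (n : ℝ) ≤ 2 * x ∧
        ∀ s ∈ S.image (fun s => -s), ∀ p : ℕ, p.Prime → n ≠ p + s} ⊆
      {n : ℤ | x < n ∧ (n : ℝ) ≤ 2 * x ∧ (∀ s ∈ S, ∀ p : ℕ, p.Prime → n + s ≠ p) ∧
          ∀ a b : ℤ, 0 ≤ a → a ≤ b → (∀ s : ℤ, a ≤ s → s ≤ b → s ∈ S) →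
            ∃ m : ℕ, (Nat.nth Nat.Prime m : ℤ) < n + a ∧
              n + b < Nat.nth Nat.Prime (m + 1)} := by
    rintro n ⟨h1, h2, h3⟩
    have h4 : ∀ s ∈ S, ∀ p : ℕ, p.Prime → n + s ≠ p := fun s hs p hp he =>
      h3 (-s) (Finset.mem_image.2 ⟨s, hs, rfl⟩) p hp (by omega)
    have h5 : (3 : ℤ) ≤ n := by
      have : (2 : ℝ) < n := lt_of_le_of_lt hx2 h1
      have : (2 : ℤ) < n := by exact_mod_cast this
      omega
    exact ⟨h1, h2, h4, fun a b ha hab h6 => gap h5 ha hab fun s hs1 hs2 => h4 s (h6 s hs1 hs2)⟩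
  have hfin : {n : ℤ | x < n ∧ (n : ℝ) ≤ 2 * x ∧ (∀ s ∈ S, ∀ p : ℕ, p.Prime → n + s ≠ p) ∧
          ∀ a b : ℤ, 0 ≤ a → a ≤ b → (∀ s : ℤ, a ≤ s → s ≤ b → s ∈ S) →
            ∃ m : ℕ, (Nat.nth Nat.Prime m : ℤ) < n + a ∧
              n + b < Nat.nth Nat.Prime (m + 1)}.Finite := by
    refine (Set.finite_Icc (0 : ℤ) ⌊2 * x⌋).subset ?_
    rintro n ⟨h1, h2, -⟩
    refine ⟨?_, Int.le_floor.2 h2⟩
    have : (0 : ℝ) < n := by linarith
    have : (0 : ℤ) < n := by exact_mod_cast this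
    omega
  exact_mod_cast Set.ncard_le_ncard hsub hfin

end Pool.Agent.Helper88.SE
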