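import Pool.Agent.Helper88.SE.Goals
import Pool.Agent.Helper88.TU.KQ

/-! # SE-KQ: the primes at the points of `P` are killed by the weight -/

set_option autoImplicit false

open Finset Filter Topology

open scoped Classical

namespace Pool.Agent.Helper88.SE

open Pool.Agent.Helper88.PP (pr Rg om Sf SS uu vv ee LA VV QQ cost)
open Pool.Agent.Helper88.RR (gg ab nz VM StmtRA om_nonneg gg_nonneg gg_succ LA_ne ee_le)
open Pool.Agent.Helper88.GM (NI XI In XI_pos)
open Pool.Agent.Helper88.TU (Su size)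
open Pool.Agent.Helper88.CG (StmtVP mE qE small)

theorem LD_ne {z m m' D s : ℕ} (hs : s ∈ LD z m m' D) : s ≠ 0 ∧ s < z ^ m' :=
  LA_ne (Finset.mem_filter.mp hs).1

theorem sum_wt (m q z D : ℕ) (hV : VD z m (q * m) D ≠ 0) :
    ∑ s ∈ LD z m (q * m) D, (ee z s : ℝ) * (ad m q z D s ^ 2 * (Nat.totient s : ℝ)) =
      1 / VD z m (q * m) D := by
  have h1 : ∀ s ∈ LD z m (q * m) D, (ee z s : ℝ) * (ad m q z D s ^ 2 * (Nat.totient s : ℝ)) =
      1 / VD z m (q * m) D ^ 2 * (1 / ((Nat.totient s : ℝ) * ee z s)) := by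
    intro s hs
    have h2 : (Nat.totient s : ℝ) ≠ 0 := by
      have := Nat.totient_pos.mpr (Nat.pos_of_ne_zero (LD_ne hs).1)
      positivity
    have h3 : (ee z s : ℝ) ≠ 0 := by
      have : 0 < ee z s := Nat.succ_pos _
      positivity
    rw [ad]
    field_simp
  rw [Finset.sum_congr rfl h1, ← Finset.mul_sum]
  change 1 / VD z m (q * m) D ^ 2 * VD z m (q * m) D = _
  field_simp

/-- the tail of the cost -/
theorem tail (h3 : StmtRA) (m q M z y j D : ℕ) (P : Finset ℕ) (hP : P.card ≤ y)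
    (hV : VD z m (q * m) D ≠ 0) (hj : 2 * (j * (q * m)) ≤ M)
    (hc : 4 * ((P.card : ℝ) * om y z * (1 / VD z m (q * m) D)) ≤ M) :
    2 ^ j * ∑ r ∈ (TD m q M z D P).filter (fun r => M < cost z r + q * m), wd m q y z D r ≤
      ED m q M z y D P := by
  have h4 := h3 P (LD z m (q * m) D) (ee z) (fun s => ad m q z D s ^ 2 * (Nat.totient s : ℝ))
    (gg y z) (om y z) M (q * m) j (fun h => (LD_ne h).1 rfl)
    (fun r hr => ee_le (Finset.mem_filter.mp hr).1)
    (fun r => mul_nonneg (sq_nonneg _) (Nat.cast_nonneg _)) (om_nonneg y z)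
    (fun k hk => gg_nonneg y z k (by rw [Fintype.card_coe] at hk; omega))
    (fun k hk => gg_succ y z k (by rw [Fintype.card_coe] at hk; omega)) hj
    (by rw [sum_wt m q z D hV, Fintype.card_coe]; exact hc)
  rw [ED, TD, Finset.filter_filter]
  exact h4

/-- the inequality at a single integer -/
theorem point (h1 : StmtPW) (m q M z y n D : ℕ) (P : Finset ℕ) (hM : 2 ≤ M) (hm : 1 ≤ m)
    (hz : 2 ≤ z) (hV : VD z m (q * m) D ≠ 0) (hqm : q * m ≤ M) (hzn : ∀ h ∈ P, z ^ M ≤ n + h) :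
    WD m q M z y D P n ^ 2 * ((P.filter (fun h => (n + h).Prime)).card : ℝ) ≤
      ∑ h : P, GD m q M z y D P h n ^ 2 := by
  have h7 : WD m q M z y D P n ^ 2 * ((P.filter (fun h => (n + h).Prime)).card : ℝ) =
      ∑ h : P, if (n + (h : ℕ)).Prime then WD m q M z y D P n ^ 2 else 0 := by
    rw [Finset.sum_coe_sort P (fun h => if (n + h).Prime then WD m q M z y D P n ^ 2 else 0),
      ← Finset.sum_filter, Finset.sum_const, nsmul_eq_mul, mul_comm]
  rw [h7]
  refine Finset.sum_le_sum fun h _ => ?_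
  by_cases hp : (n + (h : ℕ)).Prime
  · rw [if_pos hp, h1 m q M z y D P h n hM hm hz hV hqm hp (hzn _ h.2)]
  · rw [if_neg hp]
    exact sq_nonneg _

theorem kq (h : StmtVP) (hVB : StmtVB) (hS1 : StmtS1) (hGT : StmtGT) (hPW : StmtPW) : StmtKQ := by
  obtain ⟨c1, hc1, EV, hVP⟩ := h
  obtain ⟨cG, hcG, EG, hGT⟩ := hGT
  obtain ⟨ES, hS1⟩ := hS1
  obtain ⟨EB, hVB⟩ := hVB
  obtain ⟨EZ, hZ⟩ := size
  set c : ℝ := min 1 (c1 / 200) with hc
  have hc0 : 0 < c := lt_min one_pos (by positivity)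
  have hcl : c ≤ c1 / 200 := min_le_right _ _
  have hcone : c ≤ 1 := min_le_left _ _
  clear_value c
  refine ⟨c, hc0, fun η hη => ?_⟩
  obtain ⟨E2, hE2⟩ := small (η / 2) cG (by linarith) hcG
  refine ⟨max (max (max (max ES EG) EZ) (max (max EV E2) 300)) EB, ?_⟩
  intro E z x y hE hSx u v Q b hIn P D hP hPy hDv hxu hPo
  have hEB : EB ≤ E := le_trans (le_max_right _ _) hE
  replace hE := le_trans (le_max_left _ _) hE
  have hEES : ES ≤ E := le_trans (le_trans (le_trans (le_max_left _ _) (le_max_left _ _))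
    (le_max_left _ _)) hE
  have hEEG : EG ≤ E := le_trans (le_trans (le_trans (le_max_right _ _) (le_max_left _ _))
    (le_max_left _ _)) hE
  have hEEZ : EZ ≤ E := le_trans (le_trans (le_max_right _ _) (le_max_left _ _)) hE
  have hEEV : EV ≤ E := le_trans (le_trans (le_trans (le_max_left _ _) (le_max_left _ _))
    (le_max_right _ _)) hE
  have hEE2 : E2 ≤ E := le_trans (le_trans (le_trans (le_max_right _ _) (le_max_left _ _))
    (le_max_right _ _)) hE
  have hE300 : 300 ≤ E := le_trans (le_trans (le_max_right _ _) (le_max_right _ _)) hE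
  obtain ⟨s1, s2⟩ := hE2 E hEE2
  obtain ⟨v1, v2, v3, v4, v5, v6⟩ := hVP E hEEV
  obtain ⟨a1, a2, a3, a4, a5, a6, a7, a8, a9, a10, a11, a12, a13, a14⟩ := hZ E z x y hEEZ hSx.1
  set m := mE E with hm
  set q := qE E with hq
  have hq1 : 1 ≤ q := by rw [hq, qE]; exact Nat.one_le_two_pow
  have hqm : q * m ≤ E / 16 := by
    refine le_trans (Nat.mul_le_mul_right _ ?_) v2
    nlinarith only [hq1]
  have hK : (E / 16 / m + 1) ^ 3 ≤ E := by
    refine le_trans ?_ v4
    have ha : ∀ a : ℕ, a + 1 ≤ 2 * (a + 2) := fun a => by omega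
    calc (E / 16 / m + 1) ^ 3 ≤ (2 * (E / 16 / m + 2)) ^ 3 := Nat.pow_le_pow_left (ha _) 3
      _ ≤ (2 * (E / 16 / m + 2)) ^ 6 := Nat.pow_le_pow_right (Nat.succ_le_of_lt (by positivity)) (by norm_num)
  have hj : 2 * (q / 2 * (q * m)) ≤ E / 16 := by
    refine le_trans ?_ v2
    have h1 : 2 * (q / 2) ≤ q := Nat.mul_div_le q 2
    calc 2 * (q / 2 * (q * m)) = 2 * (q / 2) * (q * m) := by ring
      _ ≤ q * (q * m) := Nat.mul_le_mul_right _ h1
      _ = q ^ 2 * m := by ring
  have hE0 : E ≠ 0 := by omega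
  have hEr : (300 : ℝ) ≤ E := by exact_mod_cast hE300
  have hEpos : (0 : ℝ) < E := by linarith only [hEr]
  -- the size of `z`
  have hx1 : z ^ E ≤ x := hSx.1.2.1
  have hz2' : 2 ≤ z := by omega
  obtain ⟨hV1, hVlog⟩ := v6 z hz2'
  obtain ⟨w1, w2, -, -, -, -⟩ := hVB E z x y hEB hSx m q v1 hqm hV1 P D hDv
  set V := VD z m (q * m) D with hV
  have hVpos : 0 < V := by linarith only [hV1, w1]
  have hV0 : V ≠ 0 := hVpos.ne'
  have hlogE0 : 0 ≤ Real.log E := Real.log_nonneg (by linarith only [hEr])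
  -- the hypotheses on `P`
  have hom := om_nonneg y z
  have hPo2 : (P.card : ℝ) * om y z ≤ (E : ℝ) ^ 2 := by
    refine hPo.trans ?_
    have h1 : Real.log E ≤ E := Real.log_le_self hEpos.le
    calc c * (E * Real.log E) ≤ 1 * (E * E) := by
          apply mul_le_mul hcone _ (by positivity) (by norm_num)
          exact mul_le_mul_of_nonneg_left h1 hEpos.le
      _ = (E : ℝ) ^ 2 := by ring
  have hPn : Pn E z x y P := ⟨hP, hPy, hPo2⟩
  have hMr : (E : ℝ) / 17 ≤ ((E / 16 : ℕ) : ℝ) := by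
    have : E ≤ 17 * (E / 16) := by clear hj hK v2 v4 v5; omega
    have h3 : (E : ℝ) ≤ 17 * ((E / 16 : ℕ) : ℝ) := by exact_mod_cast this
    linarith only [h3]
  have hx0' : 0 < x := by omega
  obtain ⟨hD1, _, _⟩ := hS1 E z x y hEES hSx u v Q b hIn m q v1 hqm hV1 hK P D hPn hDv
  have hG := hGT E z x y hEEG hSx u v Q b hIn m q v1 hqm hV1 hK P D hPn hDv
  -- the tail
  have htail := tail Pool.Agent.Helper28.RR.ra m q (E / 16) z y (q / 2) D P hPy hV0 hj (by
    refine le_trans ?_ hMr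
    rw [← hV]
    have h1 : (P.card : ℝ) * om y z * (1 / V) ≤ c * (E * Real.log E) * (1 / V) :=
      mul_le_mul_of_nonneg_right hPo (by positivity)
    have h2 : c * (E * Real.log E) * (1 / V) ≤ E / 100 := by
      rw [mul_one_div, div_le_iff₀ hVpos]
      have h3 : c * Real.log E ≤ V / 100 := by
        calc c * Real.log E ≤ c1 / 200 * Real.log E :=
              mul_le_mul_of_nonneg_right hcl hlogE0
          _ ≤ V / 100 := by linarith only [hVlog, w1]
      calc c * (E * Real.log E) = E * (c * Real.log E) := by ring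
        _ ≤ E * (V / 100) := mul_le_mul_of_nonneg_left h3 hEpos.le
        _ = E / 100 * V := by ring
    linarith only [hEr, h1, h2])
  set F := ED m q (E / 16) z y D P with hF
  set Sig := ∑ r ∈ (TD m q (E / 16) z D P).filter (fun r => E / 16 < cost z r + q * m),
    wd m q y z D r with hSig
  have hXX : 0 < XI u v Q := XI_pos (by omega) hIn
  have hD0 : 0 < F := by linarith only [hD1]
  have hSigD : Sig ≤ 1 / 2 ^ (q / 2) * F := by
    rw [one_div, ← div_eq_inv_mul, le_div_iff₀ (by positivity), mul_comm]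
    exact htail
  have hzx : z ^ (E / 16) ≤ x := le_trans (Nat.pow_le_pow_right (by omega) (by omega)) hx1
  have hA : ∑ n ∈ NI u v Q b,
      WD m q (E / 16) z y D P n ^ 2 * ((P.filter (fun h => (n + h).Prime)).card : ℝ) ≤
      ∑ n ∈ NI u v Q b, ∑ h : P, GD m q (E / 16) z y D P h n ^ 2 := by
    refine Finset.sum_le_sum fun n hn => ?_
    have hn1 : u < n := (Finset.mem_Ioc.mp (Finset.mem_filter.mp hn).1).1
    exact point hPW m q (E / 16) z y n D P v3 v1 hz2' hV0 hqm (fun h hh => by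
      have := hxu h hh
      omega)
  rw [Finset.sum_comm] at hA
  have hB := hA.trans (Finset.sum_le_sum fun h _ => hG h)
  rw [Finset.sum_const, nsmul_eq_mul, Finset.card_univ, Fintype.card_coe] at hB
  refine hB.trans ?_
  have hSig0 : Sig + Real.exp (-(cG * E)) ≤
      1 / 2 ^ (q / 2) * F + Real.exp (-(cG * E)) * F := by
    have h1 : Real.exp (-(cG * E)) ≤ Real.exp (-(cG * E)) * F :=
      le_mul_of_one_le_right (Real.exp_pos _).le hD1
    linarith only [hSigD, h1]
  have hPom : 0 ≤ (P.card : ℝ) * om y z := mul_nonneg (Nat.cast_nonneg _) hom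
  calc (P.card : ℝ) * (2 * (XI u v Q * om y z * (Sig + Real.exp (-(cG * E)))))
      = 2 * (XI u v Q * ((P.card : ℝ) * om y z * (Sig + Real.exp (-(cG * E))))) := by ring
    _ ≤ 2 * (XI u v Q * ((P.card : ℝ) * om y z *
          (1 / 2 ^ (q / 2) * F + Real.exp (-(cG * E)) * F))) := by gcongr
    _ ≤ 2 * (XI u v Q * ((E : ℝ) ^ 2 *
          (1 / 2 ^ (q / 2) * F + Real.exp (-(cG * E)) * F))) := by
        have : 0 ≤ 1 / 2 ^ (q / 2) * F + Real.exp (-(cG * E)) * F := by positivity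
        gcongr
    _ = 2 * (XI u v Q * F * ((E : ℝ) ^ 2 * (1 / 2 ^ (q / 2)) +
          (E : ℝ) ^ 2 * Real.exp (-(cG * E)))) := by ring
    _ ≤ 2 * (XI u v Q * F * (η / 2 / 2 + η / 2 / 2)) :=
        mul_le_mul_of_nonneg_left (mul_le_mul_of_nonneg_left (add_le_add s1 s2) (by positivity))
          (by norm_num)
    _ = η * (XI u v Q * F) := by ring

end Pool.Agent.Helper88.SE
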