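import Pool.Agent.Helper88.SE.KQ
import Pool.Agent.Helper88.TU.Prep

/-! # SE-LT: the local theorem -/

set_option autoImplicit false

open Finset Filter Topology

open scoped Classical

namespace Pool.Agent.Helper88.SE

open Pool.Agent.Helper88.PP (pr Rg om Sf SS uu vv ee LA VV QQ cost)
open Pool.Agent.Helper88.RR (gg ab nz VM om_nonneg)
open Pool.Agent.Helper88.GM (NI XI In XI_pos)
open Pool.Agent.Helper88.TU (Su size choose3)
open Pool.Agent.Helper88.CG (StmtVP mE qE)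
open Pool.Agent.Helper88.AC (hlogN hllN)

/-- many integers in a given class -/
theorem key {N : Finset ℕ} {W2 rp pc : ℕ → ℝ} {X F B T C1 : ℝ}
    (hW : ∀ n ∈ N, 0 ≤ W2 n) (hB0 : 0 ≤ B) (hr : ∀ n ∈ N, 0 ≤ rp n) (hp : ∀ n ∈ N, 0 ≤ pc n)
    (hp1 : ∀ n ∈ N, pc n ≠ 0 → 1 ≤ pc n)
    (hB : ∀ n ∈ N, rp n ≤ T → W2 n ≤ B) (hT : 0 < T)
    (hX : 0 < X) (hF : 1 ≤ F)
    (h1 : 1 / 2 * (X * F) ≤ ∑ n ∈ N, W2 n)
    (h2 : ∑ n ∈ N, W2 n * pc n ≤ 1 / 8 * (X * F))
    (h3 : ∑ n ∈ N, W2 n * rp n ≤ C1 * (X * F)) (hC1 : C1 ≤ T / 8) :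
    X / 4 ≤ B * ((N.filter (fun n => pc n = 0)).card : ℝ) := by
  have h4 : ∀ n ∈ N, W2 n ≤ (if pc n = 0 then B else 0) + W2 n * pc n + W2 n * rp n / T := by
    intro n hn
    have a1 := hW n hn
    have a2 := hr n hn
    have a3 := hp n hn
    have a4 : 0 ≤ W2 n * rp n / T := by positivity
    have a5 : 0 ≤ W2 n * pc n := by positivity
    by_cases h5 : pc n = 0
    · rw [if_pos h5]
      rcases le_or_gt (rp n) T with h6 | h6
      · have := hB n hn h6
        linarith only [a4, a5, this]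
      · have h7 : W2 n ≤ W2 n * rp n / T := by
          rw [le_div_iff₀ hT]
          exact mul_le_mul_of_nonneg_left h6.le a1
        linarith only [hB0, a5, h7]
    · rw [if_neg h5]
      have h6 := hp1 n hn h5
      have h7 : W2 n * 1 ≤ W2 n * pc n := mul_le_mul_of_nonneg_left h6 a1
      linarith only [a4, h7]
  have h5 := Finset.sum_le_sum h4
  rw [Finset.sum_add_distrib, Finset.sum_add_distrib, ← Finset.sum_filter, Finset.sum_const,
    nsmul_eq_mul, ← Finset.sum_div] at h5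
  have hXF : 0 < X * F := by positivity
  have h6 : (∑ n ∈ N, W2 n * rp n) / T ≤ 1 / 8 * (X * F) := by
    rw [div_le_iff₀ hT]
    have := mul_le_mul_of_nonneg_right hC1 hXF.le
    linarith only [h3, this]
  have h7 : X * 1 ≤ X * F := mul_le_mul_of_nonneg_left hF hX.le
  linarith only [h1, h2, h5, h6, h7]

/-- one class -/
theorem one (hVP : StmtVP) (hDV : StmtDV) (hS1 : StmtS1) (hKQ : StmtKQ) (hRC : StmtRC)
    (hSU : StmtSU) : ∃ c : ℝ, 0 < c ∧ ∃ E0 : ℕ, ∀ E z x y : ℕ, E0 ≤ E → Sx E z x y →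
    ∀ b < QQ x, ∀ P : Finset ℕ, P ⊆ Icc x (x ^ 5) → P.card ≤ y →
    (P.card : ℝ) * om y z ≤ c * (E * Real.log E) →
    XI 0 x (QQ x) * Real.exp (-((E : ℝ) ^ 2)) ≤
      (((NI 0 x (QQ x) b).filter (fun n => ∀ h ∈ P, ¬ (n + h).Prime)).card : ℝ) := by
  obtain ⟨cV, hcV, EV, hVP⟩ := hVP
  obtain ⟨ED0, hDV⟩ := hDV
  obtain ⟨ES, hS1⟩ := hS1
  obtain ⟨c, hc, hKQ⟩ := hKQ
  obtain ⟨EK, hKQ⟩ := hKQ (1 / 8) (by norm_num)
  obtain ⟨C, hC, ER, hRC⟩ := hRC
  obtain ⟨EU, hSU⟩ := hSU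
  obtain ⟨EZ, hZ⟩ := size
  obtain ⟨N1, hN1⟩ := exists_nat_ge (16 * C)
  set c' : ℝ := min c 1 with hc'
  have hc'0 : 0 < c' := lt_min hc one_pos
  have hc'c : c' ≤ c := min_le_left _ _
  have hc'1 : c' ≤ 1 := min_le_right _ _
  refine ⟨c', hc'0, EV + ED0 + ES + EK + ER + EU + EZ + N1 + 300, ?_⟩
  intro E z x y hE hSx b hb P hP hPy hPo
  obtain ⟨v1, v2, v3, v4, v5, v6⟩ := hVP E (by omega)
  obtain ⟨a1, a2, a3, a4, a5, a6, a7, a8, a9, a10, a11, a12, a13, a14⟩ := hZ E z x y (by omega) hSx.1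
  set m := mE E with hm
  set q := qE E with hq
  have hq1 : 1 ≤ q := by rw [hq, qE]; exact Nat.one_le_two_pow
  have hqm : q * m ≤ E / 16 := by
    refine le_trans (Nat.mul_le_mul_right _ ?_) v2
    nlinarith only [hq1]
  have hK : (E / 16 / m + 1) ^ 3 ≤ E := by
    refine le_trans ?_ v4
    have ha : ∀ a : ℕ, a + 1 ≤ 2 * (a + 2) := fun a => by omega
    calc (E / 16 / m + 1) ^ 3 ≤ (2 * (E / 16 / m + 2)) ^ 3 := Nat.pow_le_pow_left (ha _) 3
      _ ≤ (2 * (E / 16 / m + 2)) ^ 6 := Nat.pow_le_pow_right (Nat.succ_le_of_lt (by positivity)) (by norm_num)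
  have hz2 : 2 ≤ z := by omega
  obtain ⟨hV1, -⟩ := v6 z hz2
  have hx1 : 1 ≤ x := by omega
  have hE300 : 300 ≤ E := by omega
  have hEr : (300 : ℝ) ≤ E := by exact_mod_cast hE300
  have hEpos : (0 : ℝ) < E := by linarith only [hEr]
  have hP1 : P ⊆ Icc 1 (x ^ 5) := hP.trans (Finset.Icc_subset_Icc_left hx1)
  obtain ⟨D, hD⟩ := hDV E z x y (by omega) hSx P hP1 hPy
  have hIn : In x 0 x (QQ x) b := ⟨dvd_rfl, hb, by omega⟩
  have hlog : Real.log E ≤ E := Real.log_le_self hEpos.le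
  have hlog0 : 0 ≤ Real.log E := Real.log_nonneg (by linarith only [hEr])
  have hPo2 : (P.card : ℝ) * om y z ≤ (E : ℝ) ^ 2 := by
    refine hPo.trans ?_
    calc c' * (E * Real.log E) ≤ 1 * (E * E) := by
          apply mul_le_mul hc'1 _ (by positivity) (by norm_num)
          exact mul_le_mul_of_nonneg_left hlog hEpos.le
      _ = (E : ℝ) ^ 2 := by ring
  have hPn : Pn E z x y P := ⟨hP1, hPy, hPo2⟩
  obtain ⟨b1, b2, b3⟩ := hS1 E z x y (by omega) hSx 0 x (QQ x) b hIn m q v1 hqm hV1 hK P D hPn hD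
  have b4 := hKQ E z x y (by omega) hSx 0 x (QQ x) b hIn P D hP1 hPy hD
    (fun h hh => by have := (Finset.mem_Icc.1 (hP hh)).1; omega)
    (hPo.trans (mul_le_mul_of_nonneg_right hc'c (by positivity)))
  have b5 := hRC E z x y (by omega) hSx 0 x (QQ x) b hIn P D hPn hD
  have b6 := hSU E z x y (by omega) hSx m q v1 hqm hV1 hK P D hP1 hD
  have hXI : 0 < XI 0 x (QQ x) := XI_pos hx1 hIn
  set F := ED m q (E / 16) z y D P with hF
  have hpc : ∀ n, ((P.filter (fun h => (n + h).Prime)).card : ℝ) = 0 ↔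
      ∀ h ∈ P, ¬ (n + h).Prime := by
    intro n
    rw [Nat.cast_eq_zero, Finset.card_eq_zero, Finset.filter_eq_empty_iff]
  have hmain := key (N := NI 0 x (QQ x) b) (W2 := fun n => WD m q (E / 16) z y D P n ^ 2)
    (rp := fun n => ((P.filter (fun h => Rg y z (n + h))).card : ℝ))
    (pc := fun n => ((P.filter (fun h => (n + h).Prime)).card : ℝ))
    (X := XI 0 x (QQ x)) (F := F) (B := Real.exp ((E : ℝ) ^ 2 / 2)) (T := (E : ℝ) ^ 3)
    (C1 := C * ((E : ℝ) ^ 2 + E))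
    (fun n _ => sq_nonneg _) (Real.exp_pos _).le (fun n _ => Nat.cast_nonneg _)
    (fun n _ => Nat.cast_nonneg _)
    (fun n _ h => by
      have h1 : (P.filter (fun h => (n + h).Prime)).card ≠ 0 := by
        intro h2
        apply h
        rw [h2]
        norm_num
      exact_mod_cast Nat.one_le_iff_ne_zero.2 h1)
    (fun n hn h => by
      have hn1 : n ≤ x := (Finset.mem_Ioc.mp (Finset.mem_filter.mp hn).1).2
      exact b6 n hn1 (by exact_mod_cast h))
    (by positivity) hXI b1 b2 b4 (by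
      refine b5.trans ?_
      have h1 : C * (XI 0 x (QQ x) * F) * ((P.card : ℝ) * om y z + E) ≤
          C * (XI 0 x (QQ x) * F) * ((E : ℝ) ^ 2 + E) := by
        have : 0 ≤ C * (XI 0 x (QQ x) * F) := by positivity
        exact mul_le_mul_of_nonneg_left (by linarith only [hPo2]) this
      refine h1.trans (le_of_eq ?_)
      ring)
    (by
      have h1 : (N1 : ℝ) ≤ E := by exact_mod_cast (by omega : N1 ≤ E)
      have h2 : 16 * C ≤ E := hN1.trans h1
      have h3 : (E : ℝ) ^ 2 + E ≤ 2 * (E : ℝ) ^ 2 := by nlinarith only [hEr]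
      calc C * ((E : ℝ) ^ 2 + E) ≤ C * (2 * (E : ℝ) ^ 2) := mul_le_mul_of_nonneg_left h3 hC.le
        _ = (16 * C) * (E : ℝ) ^ 2 / 8 := by ring
        _ ≤ E * (E : ℝ) ^ 2 / 8 := by gcongr
        _ = (E : ℝ) ^ 3 / 8 := by ring)
  have hcard : ((NI 0 x (QQ x) b).filter (fun n =>
      ((P.filter (fun h => (n + h).Prime)).card : ℝ) = 0)) =
      (NI 0 x (QQ x) b).filter (fun n => ∀ h ∈ P, ¬ (n + h).Prime) :=
    Finset.filter_congr fun n _ => hpc n
  rw [hcard] at hmain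
  set G := (((NI 0 x (QQ x) b).filter (fun n => ∀ h ∈ P, ¬ (n + h).Prime)).card : ℝ) with hG
  have h4 : (4 : ℝ) ≤ Real.exp ((E : ℝ) ^ 2 / 2) := by
    have := Real.add_one_le_exp ((E : ℝ) ^ 2 / 2)
    nlinarith only [hEr, this]
  have h5 : Real.exp (-((E : ℝ) ^ 2)) * (Real.exp ((E : ℝ) ^ 2 / 2) * Real.exp ((E : ℝ) ^ 2 / 2)) = 1 := by
    rw [← Real.exp_add, ← Real.exp_add, ← Real.exp_zero]
    congr 1
    ring
  have h6 : XI 0 x (QQ x) ≤ Real.exp ((E : ℝ) ^ 2 / 2) * Real.exp ((E : ℝ) ^ 2 / 2) * G := by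
    have hG0 : 0 ≤ G := Nat.cast_nonneg _
    calc XI 0 x (QQ x) ≤ 4 * (Real.exp ((E : ℝ) ^ 2 / 2) * G) := by linarith only [hmain]
      _ ≤ Real.exp ((E : ℝ) ^ 2 / 2) * (Real.exp ((E : ℝ) ^ 2 / 2) * G) :=
          mul_le_mul_of_nonneg_right h4 (by positivity)
      _ = _ := by ring
  calc XI 0 x (QQ x) * Real.exp (-((E : ℝ) ^ 2))
      ≤ (Real.exp ((E : ℝ) ^ 2 / 2) * Real.exp ((E : ℝ) ^ 2 / 2) * G) *
          Real.exp (-((E : ℝ) ^ 2)) := mul_le_mul_of_nonneg_right h6 (Real.exp_pos _).le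
    _ = (Real.exp (-((E : ℝ) ^ 2)) * (Real.exp ((E : ℝ) ^ 2 / 2) *
          Real.exp ((E : ℝ) ^ 2 / 2))) * G := by ring
    _ = G := by rw [h5, one_mul]

/-- sizes for the local theorem -/
theorem sizesL (c lam0 D : ℝ) (hc : 0 < c) : ∀ᶠ x : ℕ in atTop,
    8 * D * (lam0 + 1) ≤ 1 / 2 * Real.log (Real.log x) ∧
    16 ≤ Real.log x ∧ Real.log (Real.log x) ≤ 1 / 2 * Real.log x ∧
    1 ≤ Real.log (Real.log x) ∧ Real.log x ≤ x := by
  have e1 : ∀ᶠ x : ℕ in atTop, 2 * (8 * D * (lam0 + 1)) ≤ Real.log (Real.log x) :=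
    hllN.eventually_ge_atTop _
  have e2 : ∀ᶠ x : ℕ in atTop, (16 : ℝ) ≤ Real.log x := hlogN.eventually_ge_atTop _
  have e3 : ∀ᶠ x : ℕ in atTop, Real.log (Real.log x) ≤ 1 / 2 * Real.log x :=
    hlogN.eventually (Pool.Agent.Helper87.CG.log_le_eps (by norm_num))
  have e4 : ∀ᶠ x : ℕ in atTop, 1 ≤ Real.log (Real.log x) := hllN.eventually_ge_atTop _
  filter_upwards [e1, e2, e3, e4] with x a1 a2 a3 a4
  exact ⟨by linarith, a2, a3, a4, Real.log_le_self (Nat.cast_nonneg _)⟩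

/-- THE LOCAL THEOREM -/
theorem lt (hVP : StmtVP) (hDV : StmtDV) (hS1 : StmtS1) (hKQ : StmtKQ) (hRC : StmtRC)
    (hSU : StmtSU) (hCL : StmtCL) (hA4 : Pool.Agent.Helper88.TU.StmtA4) : StmtLT := by
  obtain ⟨c1, hc1, E1, h1⟩ := one hVP hDV hS1 hKQ hRC hSU
  obtain ⟨C4, hC4, E4, hA4⟩ := hA4
  set D : ℝ := max 3 (2 * C4 / c1) with hD
  have hD3 : 3 ≤ D := le_max_left _ _
  have hDc : 2 * C4 ≤ D * c1 := by
    have : 2 * C4 / c1 ≤ D := le_max_right _ _
    rwa [div_le_iff₀ hc1] at this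
  have hD0 : 0 < D := by linarith
  -- `lam0`
  obtain ⟨lam0, hl0, hl1⟩ : ∃ lam0 : ℝ, 1 ≤ lam0 ∧ ((E1 + E4 : ℕ) : ℝ) ≤ Real.exp (D * lam0) := by
    refine ⟨1 + ((E1 + E4 : ℕ) : ℝ), by
      have : (0 : ℝ) ≤ ((E1 + E4 : ℕ) : ℝ) := Nat.cast_nonneg _
      linarith, ?_⟩
    have h2 : (0 : ℝ) ≤ ((E1 + E4 : ℕ) : ℝ) := Nat.cast_nonneg _
    have h3 := Real.add_one_le_exp (D * (1 + ((E1 + E4 : ℕ) : ℝ)))
    nlinarith only [hD3, h3]
  obtain ⟨x1, hx1⟩ := choose3 hD3
  obtain ⟨x2, hx2⟩ := eventually_atTop.1 (sizesL 1 lam0 D one_pos)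
  refine ⟨min (1 / (16 * D)) (1 / 4), 2 * D, 4 * Real.exp (2 * D * lam0) + 1,
    lt_min (by positivity) (by norm_num), by positivity, by positivity, max x1 x2,
    fun x hx L hL0 hL P hP hPc => ?_⟩
  have hxx1 : x1 ≤ x := (le_max_left _ _).trans hx
  obtain ⟨g1, g2, g3, g4, g5⟩ := hx2 x ((le_max_right _ _).trans hx)
  set l := Real.log (x : ℝ) with hl
  set ll := Real.log l with hll
  have hLa : L ≤ 1 / (16 * D) * ll := hL.trans (mul_le_mul_of_nonneg_right (min_le_left _ _)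
    (by linarith only [g4]))
  have hLb : L ≤ 1 / 4 * ll := hL.trans (mul_le_mul_of_nonneg_right (min_le_right _ _)
    (by linarith only [g4]))
  have hLlam : 8 * D * (L + lam0) ≤ ll := by
    have h2 : 8 * D * L ≤ 1 / 2 * ll := by
      have h3 := mul_le_mul_of_nonneg_left hLa (by positivity : 0 ≤ 8 * D)
      have h4 : 8 * D * (1 / (16 * D) * ll) = 1 / 2 * ll := by
        field_simp
        ring
      linarith only [h3, h4]
    have h5 : 8 * D * lam0 ≤ 8 * D * (lam0 + 1) :=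
      mul_le_mul_of_nonneg_left (by linarith) (by positivity)
    have h6 : 8 * D * (L + lam0) = 8 * D * L + 8 * D * lam0 := by ring
    linarith only [hD3, g1, h2]
  obtain ⟨E, z, hEpos, hE1, hE2, hE3, hE4⟩ := hx1 x hxx1 (L + lam0) (by linarith only [hl0, hL0]) hLlam
  -- `y`
  obtain ⟨y, hy⟩ : ∃ y : ℕ, y = ⌊l ^ 2⌋₊ := ⟨_, rfl⟩
  have hy1 : (y : ℝ) ≤ l ^ 2 := by rw [hy]; exact Nat.floor_le (by positivity)
  have hy2 : l ^ 2 - 1 ≤ y := by
    have := Nat.lt_floor_add_one (l ^ 2)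
    rw [← hy] at this
    linarith only [this]
  have hy3 : 1 / 2 * l ^ 2 ≤ y := by nlinarith only [hD3, hl0, g1, g3, hy2, g2]
  have hly : l ≤ y := by nlinarith only [hD3, hl0, g1, g3, hy2, g2]
  have hSu : Su E z x y := hE4 y hly hy1
  have hSx : Sx E z x y := by
    refine ⟨hSu, ?_⟩
    calc l ^ 7 = 16 * l ^ 7 / 16 := by ring
      _ ≤ l * l ^ 7 / 16 := by gcongr
      _ = (1 / 2 * l ^ 2) ^ 4 := by ring
      _ ≤ (y : ℝ) ^ 4 := pow_le_pow_left₀ (by positivity) hy3 4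
  have hPy : P.card ≤ y := by
    have h2 : (P.card : ℝ) ≤ y := by
      refine hPc.trans (le_trans ?_ hy3)
      calc L * l ≤ (1 / 4 * ll) * l := mul_le_mul_of_nonneg_right hLb (by linarith only [g2])
        _ ≤ (1 / 4 * (1 / 2 * l)) * l := by
          apply mul_le_mul_of_nonneg_right _ (by linarith only [g2])
          linarith only [g3]
        _ ≤ 1 / 2 * l ^ 2 := by nlinarith only [g2, hy1, hly]
    exact_mod_cast h2
  have hEge : E1 + E4 ≤ E := by
    have h2 : Real.exp (D * lam0) ≤ Real.exp (D * (L + lam0)) := by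
      apply Real.exp_le_exp.2
      nlinarith only [hL0, hD3]
    have h3 : ((E1 + E4 : ℕ) : ℝ) ≤ E := hl1.trans (h2.trans hE2)
    exact_mod_cast h3
  have hA := hA4 E z x y (by omega) hSu
  set Q := QQ x with hQ
  have hQ0 : 0 < Q := primorial_pos _
  have hQr : (0 : ℝ) < Q := by exact_mod_cast hQ0
  set Pb : ℕ → Finset ℕ := fun b => P.filter (fun i => Nat.Coprime (b + i) Q) with hPb
  set BB : Finset ℕ := (range Q).filter (fun b =>
    ((Pb b).card : ℝ) ≤ 2 * (P.card * (Nat.totient Q / Q : ℝ))) with hBB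
  have hBBc : (Q : ℝ) / 2 ≤ (BB.card : ℝ) := hCL Q P hQ0
  have hom := om_nonneg y z
  have hxpos : (0 : ℝ) < x := by linarith only [g2, g5]
  -- one class
  have hone : ∀ b ∈ BB, XI 0 x Q * Real.exp (-((E : ℝ) ^ 2)) ≤
      (((NI 0 x Q b).filter (fun n => ∀ h ∈ P, ¬ (n + h).Prime)).card : ℝ) := by
    intro b hb
    obtain ⟨hb1, hb2⟩ := Finset.mem_filter.1 hb
    have hb3 : b < Q := Finset.mem_range.1 hb1
    have hsub : Pb b ⊆ P := Finset.filter_subset _ _
    have h2 : ((Pb b).card : ℝ) * om y z ≤ c1 * (E * Real.log E) := by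
      calc ((Pb b).card : ℝ) * om y z ≤ 2 * (P.card * (Nat.totient Q / Q : ℝ)) * om y z :=
            mul_le_mul_of_nonneg_right hb2 hom
        _ = 2 * P.card * (om y z * (Nat.totient Q / Q : ℝ)) := by ring
        _ ≤ 2 * P.card * (C4 * (E / l)) :=
            mul_le_mul_of_nonneg_left hA (by positivity)
        _ ≤ 2 * (L * l) * (C4 * (E / l)) := by
            have h5 : 0 ≤ C4 * (E / l) := by positivity
            exact mul_le_mul_of_nonneg_right (by linarith only [hPc]) h5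
        _ = (2 * C4) * L * E := by
            have : l ≠ 0 := by linarith only [g2]
            field_simp
        _ ≤ (D * c1) * L * E := by gcongr
        _ = c1 * (E * (D * L)) := by ring
        _ ≤ c1 * (E * Real.log E) := by
            have h6 : D * L ≤ Real.log E := by
              refine le_trans ?_ hE1
              nlinarith only [hD3, hl0]
            gcongr
    have h3 := h1 E z x y (by omega) hSx b hb3 (Pb b) (hsub.trans hP)
      ((Finset.card_le_card hsub).trans hPy) h2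
    refine h3.trans ?_
    have h4 : (NI 0 x Q b).filter (fun n => ∀ h ∈ Pb b, ¬ (n + h).Prime) ⊆
        (NI 0 x Q b).filter (fun n => ∀ h ∈ P, ¬ (n + h).Prime) := by
      intro n hn
      obtain ⟨hn1, hn2⟩ := Finset.mem_filter.1 hn
      refine Finset.mem_filter.2 ⟨hn1, fun h hh hpr => ?_⟩
      by_cases hco : Nat.Coprime (b + h) Q
      · exact hn2 h (Finset.mem_filter.2 ⟨hh, hco⟩) hpr
      · obtain ⟨p, hp, hp1, hp2⟩ := Nat.Prime.not_coprime_iff_dvd.1 hco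
        have hnb : n % Q = b := (Finset.mem_filter.1 hn1).2
        have hpn : p ∣ n + h := by
          have h5 : n = Q * (n / Q) + b := by rw [← hnb]; exact (Nat.div_add_mod n Q).symm
          rw [h5, add_assoc]
          exact (dvd_mul_of_dvd_left hp2 _).add hp1
        have h6 := (Nat.prime_dvd_prime_iff_eq hp hpr).1 hpn
        have h7 : p ≤ ⌊Real.log x / 20⌋₊ := (Nat.Prime.dvd_primorial_iff hp).1 hp2
        have h8 : (p : ℝ) ≤ Real.log x / 20 :=
          (by exact_mod_cast h7 : (p : ℝ) ≤ (⌊Real.log x / 20⌋₊ : ℝ)).trans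
            (Nat.floor_le (by linarith only [g2]))
        have h9 : x ≤ h := (Finset.mem_Icc.1 (hP hh)).1
        have h10 : (x : ℝ) ≤ p := by
          rw [h6]
          exact_mod_cast (by omega : x ≤ n + h)
        linarith only [g2, g5, h8, h10]
    exact_mod_cast Finset.card_le_card h4
  -- sum over the classes
  have hsum : ∑ b ∈ BB, (((NI 0 x Q b).filter (fun n => ∀ h ∈ P, ¬ (n + h).Prime)).card : ℝ) ≤
      (((Ioc 0 x).filter (fun n => ∀ h ∈ P, ¬ (n + h).Prime)).card : ℝ) := by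
    rw [← Nat.cast_sum, ← Finset.card_biUnion]
    · have h2 : (BB.biUnion fun b => (NI 0 x Q b).filter (fun n => ∀ h ∈ P, ¬ (n + h).Prime)) ⊆
          (Ioc 0 x).filter (fun n => ∀ h ∈ P, ¬ (n + h).Prime) := by
        intro n hn
        obtain ⟨b, _, hn1⟩ := Finset.mem_biUnion.1 hn
        obtain ⟨hn2, hn3⟩ := Finset.mem_filter.1 hn1
        exact Finset.mem_filter.2 ⟨(Finset.mem_filter.1 hn2).1, hn3⟩
      exact_mod_cast Finset.card_le_card h2
    · intro b _ b' _ hbb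
      refine Finset.disjoint_left.2 fun n hn hn' => hbb ?_
      have h2 := (Finset.mem_filter.1 (Finset.mem_filter.1 hn).1).2
      have h3 := (Finset.mem_filter.1 (Finset.mem_filter.1 hn').1).2
      rw [← h2, ← h3]
  have hlow : (Q : ℝ) / 2 * (XI 0 x Q * Real.exp (-((E : ℝ) ^ 2))) ≤
      ∑ b ∈ BB, (((NI 0 x Q b).filter (fun n => ∀ h ∈ P, ¬ (n + h).Prime)).card : ℝ) := by
    calc (Q : ℝ) / 2 * (XI 0 x Q * Real.exp (-((E : ℝ) ^ 2)))
        ≤ BB.card * (XI 0 x Q * Real.exp (-((E : ℝ) ^ 2))) := by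
          apply mul_le_mul_of_nonneg_right hBBc
          unfold XI
          positivity
      _ = ∑ _b ∈ BB, XI 0 x Q * Real.exp (-((E : ℝ) ^ 2)) := by
          rw [Finset.sum_const, nsmul_eq_mul]
      _ ≤ _ := Finset.sum_le_sum hone
  refine le_trans ?_ (hlow.trans hsum)
  have hXI : XI 0 x Q = x / Q := by
    unfold XI
    rw [Nat.sub_zero]
  rw [hXI]
  have h2 : (Q : ℝ) / 2 * (x / Q * Real.exp (-((E : ℝ) ^ 2))) =
      x * (1 / 2 * Real.exp (-((E : ℝ) ^ 2))) := by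
    field_simp
  rw [h2]
  refine mul_le_mul_of_nonneg_left ?_ hxpos.le
  have h3 : (E : ℝ) ^ 2 ≤ 4 * Real.exp (2 * D * lam0) * Real.exp (2 * D * L) := by
    calc (E : ℝ) ^ 2 ≤ (2 * Real.exp (D * (L + lam0))) ^ 2 :=
          pow_le_pow_left₀ hEpos.le hE3 2
      _ = 4 * (Real.exp (D * (L + lam0)) * Real.exp (D * (L + lam0))) := by ring
      _ = 4 * (Real.exp (2 * D * lam0) * Real.exp (2 * D * L)) := by
          rw [← Real.exp_add, ← Real.exp_add]
          congr 2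
          ring
      _ = _ := by ring
  have h4 : 1 ≤ Real.exp (2 * D * L) := Real.one_le_exp (by positivity)
  have h5 : (1 : ℝ) / 2 = Real.exp (-(Real.log 2)) := by
    rw [Real.exp_neg, Real.exp_log (by norm_num)]
    norm_num
  rw [h5, ← Real.exp_add]
  apply Real.exp_le_exp.2
  have h6 := Real.log_two_lt_d9
  nlinarith only [h3, h4, h6]

end Pool.Agent.Helper88.SE
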