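import Pool.Agent.Helper88.SE.MainOf
import Pool.Agent.Helper83.SE.S1

/-!
# Arbitrary sets of translates without primes: the main theorem
-/

set_option autoImplicit false

namespace Pool.Agent.Helper88.SE

theorem main : StmtT := main_of Pool.Agent.Helper83.SE.s1

end Pool.Agent.Helper88.SE
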