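import Pool.Agent.Helper64.SE.BK
import Pool.Agent.Helper76.SE.GH
import Pool.Agent.Helper33.SE.TK
import Pool.Agent.Helper36.SE.DV
import Pool.Agent.Helper30.SE.VB
import Pool.Agent.Helper98.SE.TH
import Pool.Agent.Helper39.SE.GT
import Pool.Agent.Helper61.SE.PW
import Pool.Agent.Helper22.SE.RC
import Pool.Agent.Helper50.SE.SU
import Pool.Agent.Helper59.SE.CL
import Pool.Agent.Helper32.SE.T
import Pool.Agent.Helper88.SE.TR
import Pool.Agent.Helper88.SE.KQ
import Pool.Agent.Helper88.SE.LT
import Pool.Agent.Helper56.TU.A4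

/-!
# Arbitrary sets of translates without primes: assembly
-/

set_option autoImplicit false

namespace Pool.Agent.Helper88.SE

theorem main_of (hS1 : StmtTH → StmtGH → StmtVB → StmtS1) : StmtT := by
  have gh : StmtGH := Pool.Agent.Helper76.SE.gh
  have vb : StmtVB := Pool.Agent.Helper30.SE.vb
  have th : StmtTH :=
    Pool.Agent.Helper98.SE.th tr (Pool.Agent.Helper33.SE.tk Pool.Agent.Helper64.SE.bk) gh
  have s1 : StmtS1 := hS1 th gh vb
  have kq : StmtKQ := by
    have := @kq
    exact this Pool.Agent.Helper88.CG.vp vb s1 (Pool.Agent.Helper39.SE.gt th gh vb)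
      Pool.Agent.Helper61.SE.pw
  exact Pool.Agent.Helper32.SE.t (lt Pool.Agent.Helper88.CG.vp Pool.Agent.Helper36.SE.dv s1 kq
    (Pool.Agent.Helper22.SE.rc th gh vb) (Pool.Agent.Helper50.SE.su vb)
    Pool.Agent.Helper59.SE.cl Pool.Agent.Helper56.TU.a4)

end Pool.Agent.Helper88.SE
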